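import Pool.Agent.T9h90.SP.Spec

set_option autoImplicit false
set_option linter.unusedSectionVars false

/-! (NC) and (CS) of the SP project. -/

namespace Pool.Agent.T9h82.SP

open Pool.Agent.Helper617.RM
open Pool.Agent.T9h90.SP

universe u

variable {N : L2Structure.{u}} [IsModelRCA0 N]

theorem ballNat {P : ℕ → Ctx N → Prop} (h : ∀ i, D0 (P i)) (n : ℕ) :
    D0 (fun v => ∀ i, i < n → P i v) := by
  induction n with
  | zero => exact (D0.const True).congr fun v => by simp
  | succ n ih =>
    refine (ih.and (h n)).congr fun v => ?_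
    constructor
    · rintro ⟨h1, h2⟩ i hi
      rcases Nat.lt_succ_iff_lt_or_eq.1 hi with hi | rfl
      · exact h1 i hi
      · exact h2
    · intro h1
      exact ⟨fun i hi => h1 i (Nat.lt_succ_of_lt hi), h1 n (Nat.lt_succ_self n)⟩

theorem bexNat {P : ℕ → Ctx N → Prop} (h : ∀ i, D0 (P i)) (n : ℕ) :
    D0 (fun v => ∃ i, i < n ∧ P i v) :=
  (ballNat (P := fun i v => ¬ P i v) (fun i => (h i).not) n).not.congr fun v => by push Not; rfl

/-- colours of pairs of terms -/
theorem colD0 {f : N.M → N.M → Bool} (hf : DF N f) {s t : Ctx N → N.M} (hs : Tm s) (ht : Tm t)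
    (c : Bool) : D0 (fun v => f (s v) (t v) = c) := by
  have h : D0 (fun v => f (s v) (t v) = true) :=
    hf.comp (g := fun v => cons (s v) (cons (t v) v)) (CM.cons hs (CM.cons ht CM.id))
  cases c
  · exact h.not.congr fun v => by simp
  · exact h

theorem relD0 {Q : N.M → N.M → Prop} (hQ : D0 (fun v => Q (v 0) (v 1))) {s t : Ctx N → N.M}
    (hs : Tm s) (ht : Tm t) : D0 (fun v => Q (s v) (t v)) :=
  hQ.comp (g := fun v => cons (s v) (cons (t v) v)) (CM.cons hs (CM.cons ht CM.id))

theorem nc : S_NC.{u} := by
  intro N _ f hf c H hH n x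
  refine comp_D0 (P := fun w => w ∈ H ∧ ∀ i, i < n → x i < w ∧ f (x i) w = c) ?_
  refine (D0.mem (Tm.var 0) hH).and (ballNat (fun i => ?_) n)
  exact (D0.lt (Tm.const _) (Tm.var 0)).and (colD0 hf (Tm.const _) (Tm.var 0) c)

/-- quantification over finitely many numbers -/
theorem exS : ∀ (n : ℕ) (P : Ctx N → Prop), S1 P →
    S1 (fun v : Ctx N => ∃ x : ℕ → N.M, P (fun k => if k < n then x k else v (k - n))) := by
  intro n
  induction n with
  | zero =>
    intro P hP
    refine hP.congr fun v => ?_
    constructor
    · intro h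
      exact ⟨fun _ => 0, by simpa using h⟩
    · rintro ⟨x, h⟩
      simpa using h
  | succ n ih =>
    intro P hP
    have h := ih P hP
    have h2 : S1 (fun v : Ctx N => ∃ a : N.M,
        ∃ x : ℕ → N.M, P (fun k => if k < n then x k else (cons a v) (k - n))) := by
      refine S1.ex (P := fun v a =>
        ∃ x : ℕ → N.M, P (fun k => if k < n then x k else (cons a v) (k - n))) ?_
      refine h.congr fun v => ?_
      rw [cons_tail]
    refine h2.congr fun v => ?_
    constructor
    · rintro ⟨a, x, h⟩
      refine ⟨fun k => if k < n then x k else a, ?_⟩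
      have e : (fun k => if k < n then x k else (cons a v) (k - n)) =
          (fun k => if k < n + 1 then (if k < n then x k else a) else v (k - (n + 1))) := by
        funext k
        rcases lt_trichotomy k n with hk | rfl | hk
        · simp [hk, Nat.lt_succ_of_lt hk]
        · simp [cons]
        · have h1 : ¬ k < n := by omega
          have h2 : ¬ k < n + 1 := by omega
          have h3 : k - n = (k - (n + 1)) + 1 := by omega
          simp only [h1, h2, if_false]
          rw [h3]
          rfl
      rw [← e]
      exact h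
    · rintro ⟨x, h⟩
      refine ⟨x n, x, ?_⟩
      have e : (fun k => if k < n then x k else (cons (x n) v) (k - n)) =
          (fun k => if k < n + 1 then x k else v (k - (n + 1))) := by
        funext k
        rcases lt_trichotomy k n with hk | rfl | hk
        · simp [hk, Nat.lt_succ_of_lt hk]
        · simp [cons]
        · have h1 : ¬ k < n := by omega
          have h2 : ¬ k < n + 1 := by omega
          have h3 : k - n = (k - (n + 1)) + 1 := by omega
          simp only [h1, h2, if_false]
          rw [h3]
          rfl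
      rw [e]
      exact h

/-- being a copy, with the points and the parameter taken from the context -/
theorem copyD0 {f : N.M → N.M → Bool} (hf : DF N f) {Q : N.M → N.M → Prop}
    (hQ : D0 (fun v => Q (v 0) (v 1))) (p : Sep) :
    D0 (fun v : Ctx N => Copy f {y | Q (v p.size) y} p v) := by
  refine (D0.and (ballNat (P := fun i v => Q (v p.size) (v i))
    (fun i => relD0 hQ (Tm.var _) (Tm.var i)) p.size)
    (ballNat (P := fun j v => ∀ i, i < j → v i < v j ∧
      f (v i) (v j) = decide (p.val i < p.val j))
      (fun j => ballNat (P := fun i v => v i < v j ∧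
        f (v i) (v j) = decide (p.val i < p.val j)) (fun i =>
          (D0.lt (Tm.var i) (Tm.var j)).and (colD0 hf (Tm.var i) (Tm.var j) _)) j)
      p.size)).congr fun v => ?_
  constructor
  · rintro ⟨h1, h2⟩
    exact ⟨h1, fun i j hij hj => h2 j hj i hij⟩
  · rintro ⟨h1, h2⟩
    exact ⟨h1, fun j hj i hij => h2 i j hij hj⟩

theorem copy_congr {M : Type u} [LT M] {f : M → M → Bool} {H : Set M} {p : Sep} {x y : ℕ → M}
    (h : ∀ i, i < p.size → x i = y i) (hx : Copy f H p x) : Copy f H p y := by
  refine ⟨fun i hi => h i hi ▸ hx.1 i hi, fun i j hij hj => ?_⟩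
  rw [← h i (lt_trans hij hj), ← h j hj]
  exact hx.2 i j hij hj

theorem cs : S_CS.{u} := by
  intro N _ f hf p Q E hQ hE
  have e : ∀ (v : Ctx N) (x : ℕ → N.M) (i : ℕ), i < p.size →
      (fun k => if k < p.size then x k else v (k - p.size)) i = x i := by
    intro v x i hi
    simp [hi]
  have e0 : ∀ (v : Ctx N) (x : ℕ → N.M),
      (fun k => if k < p.size then x k else v (k - p.size)) p.size = v 0 := by
    intro v x
    simp
  constructor
  · refine (exS p.size (fun v => Copy f {y | Q (v p.size) y} p v)
      (copyD0 hf hQ p).S1).congr fun v => ?_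
    refine exists_congr fun x => ?_
    show Copy f {y | Q ((fun k => if k < p.size then x k else v (k - p.size)) p.size) y} p
      (fun k => if k < p.size then x k else v (k - p.size)) ↔ _
    rw [e0 v x]
    exact ⟨copy_congr (e v x), copy_congr fun i hi => (e v x i hi).symm⟩
  · refine (exS p.size (fun v => Copy f {y | Q (v p.size) y} p v ∧
      (∃ i, i < p.size ∧ v i = v p.size) ∧ ∀ j, j < p.size → E (v p.size) (v j))
      (D0.S1 ((copyD0 hf hQ p).and ((bexNat (P := fun i v => v i = v p.size)
        (fun i => D0.eq (Tm.var i) (Tm.var _)) _).and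
        (ballNat (P := fun j v => E (v p.size) (v j))
          (fun j => relD0 hE (Tm.var _) (Tm.var j)) _))))).congr fun v => ?_
    refine exists_congr fun x => ?_
    show (Copy f {y | Q ((fun k => if k < p.size then x k else v (k - p.size)) p.size) y} p
      (fun k => if k < p.size then x k else v (k - p.size)) ∧
      (∃ i, i < p.size ∧ (fun k => if k < p.size then x k else v (k - p.size)) i =
        (fun k => if k < p.size then x k else v (k - p.size)) p.size) ∧
      ∀ j, j < p.size → E ((fun k => if k < p.size then x k else v (k - p.size)) p.size)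
        ((fun k => if k < p.size then x k else v (k - p.size)) j)) ↔ _
    rw [e0 v x]
    constructor
    · rintro ⟨h1, ⟨i, hi, h2⟩, h3⟩
      refine ⟨copy_congr (e v x) h1, ⟨i, hi, ?_⟩, fun j hj => ?_⟩
      · rw [← h2]; exact (e v x i hi).symm
      · have := h3 j hj
        rwa [e v x j hj] at this
    · rintro ⟨h1, ⟨i, hi, h2⟩, h3⟩
      refine ⟨copy_congr (fun i hi => (e v x i hi).symm) h1, ⟨i, hi, ?_⟩, fun j hj => ?_⟩
      · rw [e v x i hi]; exact h2
      · rw [e v x j hj]; exact h3 j hj

end Pool.Agent.T9h82.SP
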